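import Pool.Agent.N425.KZ1

/-!
# Colouring `K_{a,b}`-minor-free graphs with `r`-colourable non-neighbourhoods

Let `G` be a finite graph without a `K_{a,b}` minor in which for every vertex `v` the non-neighbours of `v`
induce an `r`-colourable graph.  Then `G` is `(a + b - 1 + c (r + 1) ^ 10)`-colourable.  Moreover for every
`E < a + b` the graph `G` is even `(a + b - 1 - E)`-colourable, unless `G` consists of a clique and a
`c (r + 1) ^ 36 (E + 1) ^ 4`-colourable graph.  Here `c` is an absolute constant.

The proof uses only that `K_{a+b}` is not a minor of `G`, and the following theorem (`KZ.glob`): if in a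
finite graph `H` the non-neighbours of every vertex induce an `r`-colourable graph, then
`h(H) ≥ χ(H) - c (r + 1) ^ 10`, and `h(H) ≥ χ(H) + E` unless `H` is a clique plus a
`c (r + 1) ^ 36 (E + 1) ^ 4`-colourable graph; `h` is the largest `m` such that `K_m` is a minor.
-/

set_option autoImplicit false

namespace Pool.Agent.Results.MP_5babb6_co.ColourableNonNeighbours

/-- `K_{a,b}` is a minor of `G`: there are `a + b` pairwise disjoint vertex sets, each inducing a connected
subgraph, such that an edge of `G` joins each of the first `a` sets to each of the last `b` sets. -/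
def HasBicliqueMinor {V : Type} (G : SimpleGraph V) (a b : ℕ) : Prop :=
  ∃ f : Fin a ⊕ Fin b → Set V,
    (∀ i, (G.induce (f i)).Connected) ∧
    Pairwise (fun i j => Disjoint (f i) (f j)) ∧
    ∀ i : Fin a, ∀ j : Fin b, ∃ x ∈ f (Sum.inl i), ∃ y ∈ f (Sum.inr j), G.Adj x y

/-- **Colouring `K_{a,b}`-minor-free graphs with `r`-colourable non-neighbourhoods.** -/
theorem result : ∃ c : ℕ, ∀ (r a b : ℕ), 0 < a → 0 < b → ∀ (V : Type) [Finite V] (G : SimpleGraph V),
    (∀ v, (G.induce {w | w ≠ v ∧ ¬ G.Adj v w}).Colorable r) → ¬ HasBicliqueMinor G a b →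
      G.Colorable (a + b - 1 + c * (r + 1) ^ 10) ∧
      ∀ E ≤ a + b - 1, G.Colorable (a + b - 1 - E) ∨
        ∃ K : Set V, G.IsClique K ∧ (G.induce Kᶜ).Colorable (c * ((r + 1) ^ 36 * (E + 1) ^ 4)) := by
  obtain ⟨c, hc⟩ := Pool.Agent.N425.KZ.glob
  refine ⟨c, ?_⟩
  intro r a b ha hb V _ G h hminor
  have key : ¬ Pool.Agent.N425.KZ.Minor G (a + b - 1 + 1) := by
    rw [Nat.sub_add_cancel (by omega : 1 ≤ a + b)]
    rintro ⟨B, h1, h2, h3⟩
    apply hminor
    have hinj : ∀ i j : Fin a ⊕ Fin b, i ≠ j → finSumFinEquiv i ≠ finSumFinEquiv j :=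
      fun i j hij h' => hij (finSumFinEquiv.injective h')
    refine ⟨fun i => B (finSumFinEquiv i), fun i => h1 _, fun i j hij => h2 _ _ (hinj i j hij), ?_⟩
    intro i j
    exact h3 _ _ (hinj _ _ (by simp))
  refine ⟨?_, ?_⟩
  · by_contra hcol
    exact key ((hc r 0 V G h).2 _ hcol)
  · intro E hE
    rcases (hc r E V G h).1 with h1 | h1
    · exact Or.inr h1
    · left
      by_contra hcol
      have h2 := h1 _ hcol
      rw [show a + b - 1 - E + 1 + E = a + b - 1 + 1 by omega] at h2
      exact key h2

end Pool.Agent.Results.MP_5babb6_co.ColourableNonNeighbours
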